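import Pool.Agent.Q96.ID.Stm

/-! Project ID (helper96), job LINF (helper252): the spaces of bounded families are injective. -/

set_option autoImplicit false

namespace Q252.ID.LINF

open Q96.ID

theorem t_LINF : S_LINF := by
  intro 𝕜 _ Γ X Y _ _ _ _ _ _ i c hc f
  have hc' : ∀ x, ‖x‖ ≤ |c| * ‖i x‖ := fun x =>
    (hc x).trans (mul_le_mul_of_nonneg_right (le_abs_self c) (norm_nonneg _))
  have hinj : Function.Injective i := by
    intro x y h
    have h1 := hc (x - y)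
    rw [map_sub, h, sub_self, norm_zero, mul_zero] at h1
    exact sub_eq_zero.1 (norm_le_zero_iff.1 h1)
  have hinj' : Function.Injective (i : X →ₗ[𝕜] Y) := hinj
  let e : X ≃ₗ[𝕜] LinearMap.range (i : X →ₗ[𝕜] Y) := LinearEquiv.ofInjective (i : X →ₗ[𝕜] Y) hinj'
  have he : ∀ x, (e x : Y) = i x := fun x => rfl
  have hbound : ∀ (γ : Γ) (y : LinearMap.range (i : X →ₗ[𝕜] Y)), ‖f (e.symm y) γ‖ ≤ ‖f‖ * |c| * ‖y‖ := by
    intro γ y
    have h1 : ‖f (e.symm y) γ‖ ≤ ‖f (e.symm y)‖ := lp.norm_apply_le_norm ENNReal.top_ne_zero _ _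
    have h2 : ‖f (e.symm y)‖ ≤ ‖f‖ * ‖e.symm y‖ := f.le_opNorm _
    have h3 : ‖e.symm y‖ ≤ |c| * ‖i (e.symm y)‖ := hc' _
    have h4 : i (e.symm y) = (y : Y) := by
      rw [← he, e.apply_symm_apply]
    rw [h4] at h3
    calc ‖f (e.symm y) γ‖ ≤ ‖f‖ * ‖e.symm y‖ := h1.trans h2
      _ ≤ ‖f‖ * (|c| * ‖y‖) := mul_le_mul_of_nonneg_left h3 (norm_nonneg _)
      _ = ‖f‖ * |c| * ‖y‖ := by ring
  let φ : ∀ γ : Γ, LinearMap.range (i : X →ₗ[𝕜] Y) →ₗ[𝕜] 𝕜 := fun γ =>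
    { toFun := fun y => f (e.symm y) γ
      map_add' := fun y z => by
        rw [map_add, map_add]
        rfl
      map_smul' := fun a y => by
        rw [map_smul, map_smul]
        rfl }
  have hφ : ∀ γ, ∃ g : StrongDual 𝕜 Y, (∀ x, g (i x) = f x γ) ∧ ‖g‖ ≤ ‖f‖ * |c| := by
    intro γ
    obtain ⟨g, hg, hn⟩ := exists_extension_norm_eq (LinearMap.range (i : X →ₗ[𝕜] Y))
      ((φ γ).mkContinuous (‖f‖ * |c|) (hbound γ))
    refine ⟨g, fun x => ?_, ?_⟩
    · have h1 := hg (e x)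
      rw [he] at h1
      rw [h1]
      show f (e.symm (e x)) γ = f x γ
      rw [e.symm_apply_apply]
    · rw [hn]
      exact LinearMap.mkContinuous_norm_le _ (by positivity) _
  choose g hg hn using hφ
  have hb : ∀ (y : Y) (γ : Γ), ‖g γ y‖ ≤ ‖f‖ * |c| * ‖y‖ := fun y γ =>
    ((g γ).le_opNorm y).trans (mul_le_mul_of_nonneg_right (hn γ) (norm_nonneg _))
  let G : Y →ₗ[𝕜] Linf 𝕜 Γ :=
    { toFun := fun y => ⟨fun γ => g γ y, memℓp_infty ⟨‖f‖ * |c| * ‖y‖, by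
        rintro _ ⟨γ, rfl⟩
        exact hb y γ⟩⟩
      map_add' := fun y z => by
        ext γ
        exact map_add (g γ) y z
      map_smul' := fun a y => by
        ext γ
        exact map_smul (g γ) a y }
  refine ⟨G.mkContinuous (‖f‖ * |c|) fun y => ?_, fun x => ?_⟩
  · exact lp.norm_le_of_forall_le (by positivity) fun γ => hb y γ
  · ext γ
    exact hg γ x

end Q252.ID.LINF
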