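import Pool.Agent.Q96.ID.Stm

/-! Project ID (helper96), job SAME (helper252): surjective operators with the same kernel. -/

set_option autoImplicit false

namespace Q252.ID.SAME

open Q96.ID

theorem fac {𝕜 : Type} [RCLike 𝕜] {X C D : Type} [NormedAddCommGroup X] [NormedSpace 𝕜 X]
    [CompleteSpace X] [NormedAddCommGroup C] [NormedSpace 𝕜 C] [CompleteSpace C]
    [NormedAddCommGroup D] [NormedSpace 𝕜 D] (p : X →L[𝕜] C) (r : X →L[𝕜] D)
    (hp : Function.Surjective p) (h : ∀ x, p x = 0 → r x = 0) :
    ∃ T : C →L[𝕜] D, ∀ x, T (p x) = r x := by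
  have h1 : ∀ x y, p x = p y → r x = r y := by
    intro x y hxy
    have h2 := h (x - y) (by rw [map_sub, hxy, sub_self])
    rw [map_sub] at h2
    exact sub_eq_zero.1 h2
  have hs : ∀ c, p (Function.surjInv hp c) = c := Function.surjInv_eq hp
  let T : C →ₗ[𝕜] D :=
    { toFun := fun c => r (Function.surjInv hp c)
      map_add' := fun c d => by
        rw [← map_add]
        exact h1 _ _ (by rw [map_add, hs, hs, hs])
      map_smul' := fun a c => by
        rw [RingHom.id_apply, ← map_smul]
        exact h1 _ _ (by rw [map_smul, hs, hs]) }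
  have hT : ∀ x, T (p x) = r x := fun x => h1 _ _ (hs (p x))
  have hq : Topology.IsQuotientMap p := (p.isOpenMap hp).isQuotientMap p.continuous hp
  have hc : Continuous T := by
    rw [hq.continuous_iff]
    have h2 : (T : C → D) ∘ p = r := funext hT
    rw [h2]
    exact r.continuous
  exact ⟨⟨T, hc⟩, hT⟩

theorem t_SAME : S_SAME := by
  intro 𝕜 _ X C D _ _ _ _ _ _ _ _ _
  refine ⟨fun p r hp h => fac p r hp h, fun p r hp hr h => ?_, fun i q hiq => ?_⟩
  · obtain ⟨T, hT⟩ := fac p r hp fun x => (h x).1
    obtain ⟨S, hS⟩ := fac r p hr fun x => (h x).2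
    refine ⟨ContinuousLinearEquiv.equivOfInverse T S (fun c => ?_) fun d => ?_, hT⟩
    · obtain ⟨x, rfl⟩ := hp c
      rw [hT, hS]
    · obtain ⟨x, rfl⟩ := hr d
      rw [hS, hT]
  · have hcl : IsClosed (Set.range i) := by
      have h1 : Set.range i = q ⁻¹' {0} := by
        ext b
        rw [Set.mem_preimage, Set.mem_singleton_iff, hiq.ker b]
        rfl
      rw [h1]
      exact isClosed_singleton.preimage q.continuous
    obtain ⟨K, hK⟩ := i.antilipschitz_of_injective_of_isClosed_range hiq.inj hcl
    exact ⟨K, fun x => i.bound_of_antilipschitz hK x⟩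

end Q252.ID.SAME
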